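import Pool.Agent.H71.PA.Growth

/-!
MP_537ea0_ag: kernels of Abel-Jacobi maps for the powers of a variety.
-/

open CategoryTheory MonoidalCategory

set_option autoImplicit false

namespace Pool.Agent.Results.MP_537ea0_ag.PowerCriterion

open Pool.Agent.H71.PA

universe w v u

/-- Restriction of `H.map f` to the kernels of a natural transformation. -/
def kerMap {F : Type*} [Field F] {C : Type u} [Category.{v} C] {H J : C ⥤ ModuleCat.{w} F}
    (Φ : H ⟶ J) {A B : C} (f : A ⟶ B) :
    LinearMap.ker (Φ.app A).hom →ₗ[F] LinearMap.ker (Φ.app B).hom :=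
  (H.map f).hom.restrict (by
    intro x hx
    rw [LinearMap.mem_ker] at hx ⊢
    have h := LinearMap.congr_fun (congrArg ModuleCat.Hom.hom (Φ.naturality f)) x
    simp only [ModuleCat.hom_comp, LinearMap.comp_apply] at h
    rw [h, hx, map_zero])

/-- The kernel of a natural transformation. -/
def kerF {F : Type*} [Field F] {C : Type u} [Category.{v} C] {H J : C ⥤ ModuleCat.{w} F}
    (Φ : H ⟶ J) : C ⥤ ModuleCat.{w} F where
  obj A := ModuleCat.of F (LinearMap.ker (Φ.app A).hom)
  map f := ModuleCat.ofHom (kerMap Φ f)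
  map_id A := by
    ext x
    change (H.map (𝟙 A)).hom x.1 = x.1
    rw [H.map_id]
    rfl
  map_comp f g := by
    ext x
    change (H.map (f ≫ g)).hom x.1 = (H.map g).hom ((H.map f).hom x.1)
    rw [H.map_comp]
    rfl

instance {F : Type*} [Field F] {C : Type u} [Category.{v} C] [Preadditive C]
    {H J : C ⥤ ModuleCat.{w} F} [H.Additive] (Φ : H ⟶ J) : (kerF Φ).Additive where
  map_add {A B f g} := by
    ext x
    apply Subtype.ext
    change (H.map (f + g)).hom x.1 = (H.map f).hom x.1 + (H.map g).hom x.1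
    rw [H.map_add]
    rfl

theorem choose_bound (j ρ : ℕ) (hj : 1 ≤ j) :
    ∃ N₀, ∀ N, N₀ ≤ N → N * ρ ^ (j - 1) ≤ N.choose j := by
  obtain ⟨i, rfl⟩ : ∃ i, j = i + 1 := ⟨j - 1, by omega⟩
  rw [Nat.add_sub_cancel]
  rcases Nat.eq_zero_or_pos i with h0 | h0
  · subst h0
    exact ⟨0, fun N _ => by simp⟩
  · refine ⟨i + (i + 1).factorial * ρ ^ i + 1, fun N hN => ?_⟩
    obtain ⟨M, rfl⟩ : ∃ M, N = M + 1 := ⟨N - 1, by omega⟩
    have h1 : (M + 1).descFactorial (i + 1) = (M + 1) * M.descFactorial i :=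
      Nat.succ_descFactorial_succ M i
    have h2 := Nat.descFactorial_eq_factorial_mul_choose (M + 1) (i + 1)
    have h3 : (M + 1 - i) ^ i ≤ M.descFactorial i := Nat.pow_sub_le_descFactorial M i
    have h4 : M + 1 - i ≤ (M + 1 - i) ^ i := Nat.le_self_pow (by omega) _
    have h5 : (i + 1).factorial * ρ ^ i ≤ M.descFactorial i := by omega
    have h6 : (i + 1).factorial * ((M + 1) * ρ ^ i) ≤
        (i + 1).factorial * (M + 1).choose (i + 1) := by
      rw [← h2, h1]
      calc (i + 1).factorial * ((M + 1) * ρ ^ i) = (M + 1) * ((i + 1).factorial * ρ ^ i) := by ring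
        _ ≤ _ := Nat.mul_le_mul_left _ h5
    exact Nat.le_of_mul_le_mul_left h6 (Nat.factorial_pos _)

theorem inj_iff_rank {F : Type*} [Field F] {V W : Type w} [AddCommGroup V] [Module F V]
    [AddCommGroup W] [Module F W] (f : V →ₗ[F] W) :
    Function.Injective f ↔ Module.rank F (LinearMap.ker f) = 0 := by
  rw [rank_zero_iff, ← LinearMap.ker_eq_bot, Submodule.subsingleton_iff_eq_bot]

/-- Let `Φ : H ⟶ J` be a natural transformation of functors from an additive monoidal category to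
vector spaces, `H` additive, injective at the unit object, and let `A` be an object with `ρ ≥ 1`
such that `𝟙 ^ ρ` is a direct summand of `A` (`b i : 𝟙 ⟶ A`, `g j : A ⟶ 𝟙`, `b i ≫ g j = δ i j`).
The ranks of the kernels of `Φ` at the powers `A ^ {⊗ N}` are
`∑ i, C(N, i) ρ ^ (N - i) k i` with `k 0 = 0`, `k 1 = rank ker Φ_A`. So `Φ` is injective at `A` as
soon as one kernel has rank less than `N ρ ^ (N - 1)`, and at all powers of `A` as soon as this
happens for infinitely many `N`. -/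
theorem result {F : Type*} [Field F] {C : Type u} [Category.{v} C] [Preadditive C]
    [MonoidalCategory C] [MonoidalPreadditive C] (H J : C ⥤ ModuleCat.{w} F) [H.Additive]
    (Φ : H ⟶ J) (h1 : Function.Injective (Φ.app (𝟙_ C)).hom) {A : C} {ρ : ℕ} (hρ : 0 < ρ)
    (b : Fin ρ → (𝟙_ C ⟶ A)) (g : Fin ρ → (A ⟶ 𝟙_ C))
    (hbg : ∀ i j, b i ≫ g j = if i = j then 𝟙 (𝟙_ C) else 0) :
    (∃ k : ℕ → Cardinal.{w}, k 0 = 0 ∧ k 1 = Module.rank F (LinearMap.ker (Φ.app A).hom) ∧
      ∀ N, Module.rank F (LinearMap.ker (Φ.app (tpow A N)).hom) =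
        ∑ i ∈ Finset.range (N + 1), ((N.choose i * ρ ^ (N - i) : ℕ) : Cardinal) * k i) ∧
    (Function.Injective (Φ.app A).hom ↔
      ∃ N : ℕ, Module.rank F (LinearMap.ker (Φ.app (tpow A N)).hom) <
        ((N * ρ ^ (N - 1) : ℕ) : Cardinal)) ∧
    ((∀ N, Function.Injective (Φ.app (tpow A N)).hom) ↔
      ∃ᶠ N : ℕ in Filter.atTop, Module.rank F (LinearMap.ker (Φ.app (tpow A N)).hom) <
        ((N * ρ ^ (N - 1) : ℕ) : Cardinal)) := by
  classical
  set K : C ⥤ ModuleCat.{w} F := kerF Φ with hKdef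
  have hKobj : ∀ T : C, Module.rank F (K.obj T) = Module.rank F (LinearMap.ker (Φ.app T).hom) :=
    fun T => rfl
  have hinj : ∀ T : C, Function.Injective (Φ.app T).hom ↔ Module.rank F (K.obj T) = 0 :=
    fun T => inj_iff_rank _
  simp only [← hKobj, hinj]
  have hid : ∀ T : C, rk K (𝟙 T) = Module.rank F (K.obj T) := by
    intro T
    unfold rk LinearMap.rank
    rw [K.map_id]
    change Module.rank F (LinearMap.range (LinearMap.id : K.obj T →ₗ[F] K.obj T)) = _
    rw [LinearMap.range_id, rank_top]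
  have hpre : ∀ T : C, rk K (𝟙 (𝟙_ C) ▷ T) = Module.rank F (K.obj T) := by
    intro T
    rw [← hid T]
    apply rk_conj K _ _ (λ_ T).hom (λ_ T).inv
    · simp
    · simp
    · simp
    · simp
  set k : ℕ → Cardinal.{w} := fun i => wseq K b g i (𝟙 (𝟙_ C)) with hk
  have hform : ∀ N, Module.rank F (K.obj (tpow A N)) =
      ∑ i ∈ Finset.range (N + 1), ((N.choose i * ρ ^ (N - i) : ℕ) : Cardinal) * k i := by
    intro N
    rw [← hpre (tpow A N)]
    exact rk_formula K b g hbg N (𝟙 (𝟙_ C)) (Category.comp_id _)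
  have hk0 : k 0 = 0 := by
    have h2 : k 0 = rk K (𝟙 (𝟙_ C) ▷ 𝟙_ C) := rfl
    rw [h2, hpre]
    exact (hinj _).1 h1
  have hk1 : k 1 = Module.rank F (K.obj A) := by
    have h2 := hform 1
    rw [Finset.sum_range_succ, Finset.sum_range_one, hk0, mul_zero, zero_add] at h2
    simp only [Nat.choose_self, Nat.sub_self, pow_zero, mul_one, Nat.cast_one, one_mul] at h2
    rw [← h2, ← hid A, ← hid (tpow A 1)]
    apply rk_conj K _ _ (ρ_ A).hom (ρ_ A).inv
    · simp
    · simp
    · exact (ρ_ A).hom_inv_id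
    · simp
  have hterm : ∀ N j, j ≤ N → ((N.choose j * ρ ^ (N - j) : ℕ) : Cardinal) * k j ≤
      Module.rank F (K.obj (tpow A N)) := by
    intro N j hj
    rw [hform N]
    exact Finset.single_le_sum
      (f := fun i => ((N.choose i * ρ ^ (N - i) : ℕ) : Cardinal) * k i)
      (fun _ _ => zero_le) (Finset.mem_range.2 (by omega))
  have hbig : ∀ j, 1 ≤ j → k j ≠ 0 → ∃ N₀, ∀ N, N₀ ≤ N →
      ((N * ρ ^ (N - 1) : ℕ) : Cardinal) ≤ Module.rank F (K.obj (tpow A N)) := by
    intro j hj hne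
    obtain ⟨N₀, hN₀⟩ := choose_bound j ρ hj
    refine ⟨N₀ + j, fun M hM => ?_⟩
    have h2 : M * ρ ^ (M - 1) ≤ M.choose j * ρ ^ (M - j) := by
      have h3 : ρ ^ (M - 1) = ρ ^ (j - 1) * ρ ^ (M - j) := by
        rw [← pow_add]
        congr 1
        omega
      rw [h3, ← mul_assoc]
      exact Nat.mul_le_mul_right _ (hN₀ M (by omega))
    refine le_trans (Nat.cast_le.2 h2) (le_trans ?_ (hterm M j (by omega)))
    calc ((M.choose j * ρ ^ (M - j) : ℕ) : Cardinal)
        = ((M.choose j * ρ ^ (M - j) : ℕ) : Cardinal) * 1 := by rw [mul_one]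
      _ ≤ _ := mul_le_mul_right (Cardinal.one_le_iff_ne_zero.2 hne) _
  refine ⟨⟨k, hk0, hk1, hform⟩, ⟨fun h => ⟨1, ?_⟩, ?_⟩, ?_, ?_⟩
  · rw [hform 1, Finset.sum_range_succ, Finset.sum_range_one, hk0, hk1, h]
    simp
  · rintro ⟨N, hN⟩
    by_contra hne
    have h2 : 1 ≤ N := by
      by_contra h0
      have h3 : N = 0 := by omega
      subst h3
      simp at hN
    have h3 := hterm N 1 h2
    rw [Nat.choose_one_right, hk1] at h3
    have h4 : ((N * ρ ^ (N - 1) : ℕ) : Cardinal) ≤
        ((N * ρ ^ (N - 1) : ℕ) : Cardinal) * Module.rank F (K.obj A) := by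
      calc ((N * ρ ^ (N - 1) : ℕ) : Cardinal) = ((N * ρ ^ (N - 1) : ℕ) : Cardinal) * 1 := by
            rw [mul_one]
        _ ≤ _ := mul_le_mul_right (Cardinal.one_le_iff_ne_zero.2 hne) _
    exact absurd (h4.trans h3) (not_le.2 hN)
  · intro hall
    apply Filter.Eventually.frequently
    filter_upwards [Filter.eventually_ge_atTop 1] with N hN
    rw [hall N, ← Nat.cast_zero, Nat.cast_lt]
    positivity
  · intro hfreq N
    have hkz : ∀ j, k j = 0 := by
      intro j
      rcases Nat.eq_zero_or_pos j with h0 | h0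
      · rw [h0, hk0]
      by_contra hne
      obtain ⟨N₀, hN₀⟩ := hbig j h0 hne
      obtain ⟨M, hM1, hM2⟩ := (Filter.frequently_atTop.1 hfreq) N₀
      exact absurd (hN₀ M hM1) (not_le.2 hM2)
    rw [hform N]
    refine Finset.sum_eq_zero fun i _ => ?_
    rw [hkz i, mul_zero]

end Pool.Agent.Results.MP_537ea0_ag.PowerCriterion
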